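import Pool.Agent.W2helper45.UC.Stm

/-!
# Project UC: piece TRI (triangularity)
-/

set_option autoImplicit false

namespace Pool.Agent.W2helper20.UC

open Pool.Agent.W2helper45.UC
open Pool.Agent.X153.CH (rk)

variable {n r : ℕ}

theorem ne_univ_of_ssubset {F G : Finset (Fin n)} (h : G ⊂ F) : G ≠ Finset.univ := by
  rintro rfl
  exact h.2 (Finset.subset_univ _)

theorem rk_eq {F : Finset (Fin n)} (h : IsFl r F) (h2 : F ≠ Finset.univ) : rk r F = F.card := by
  rcases h.2 with h3 | h3
  · rw [rk, min_eq_left h3.le]
  · exact absurd h3 h2

theorem pr_eq {m : Ex n} (h : IsCh r m) (F : Finset (Fin n)) :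
    pr (rk r) m F = pr Finset.card m F := by
  apply Finset.sup_congr rfl
  intro G hG
  rw [Finset.mem_filter] at hG
  exact rk_eq (h.1 G hG.1) (ne_univ_of_ssubset hG.2)

theorem rk_le (F : Finset (Fin n)) : rk r F ≤ F.card := min_le_left _ _

theorem du_apply (m : Ex n) (H : Finset (Fin n)) :
    du m H = if H = Finset.univ then n - 1 - pr Finset.card m Finset.univ - m Finset.univ
      else if H ∈ m.support then H.card - pr Finset.card m H - m H else 0 := rfl

theorem du_pos {m : Ex n} (h : FY r m) {H : Finset (Fin n)} (hH : H ∈ m.support)
    (h2 : H ≠ Finset.univ) : 0 < du m H ∧ du m H + pr Finset.card m H + m H = H.card := by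
  have h3 := h.2 H hH
  rw [pr_eq h.1] at h3
  have h4 := rk_le (r := r) H
  rw [du_apply, if_neg h2, if_pos hH]
  omega

theorem mem_M {m m' : Ex n} (h' : FY r m') {H : Finset (Fin n)} (h2 : H ≠ Finset.univ) :
    H ∈ (m + du m').support ↔ H ∈ m.support ∨ H ∈ m'.support := by
  rw [Finsupp.mem_support_iff, Finsupp.add_apply]
  constructor
  · intro h
    by_contra hcon
    rw [not_or] at hcon
    apply h
    rw [du_apply, if_neg h2, if_neg hcon.2, Finsupp.notMem_support_iff.1 hcon.1, add_zero]
  · rintro (h | h)
    · have := Finsupp.mem_support_iff.1 h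
      omega
    · have := (du_pos h' h h2).1
      omega

/-- in a chain, the sup over the members strictly below `K` is attained at `U` if there is no member
between -/
theorem pr_card {m M : Ex n} {U K : Finset (Fin n)}
    (hsub : ∀ H ∈ m.support, H ≠ Finset.univ → H ∈ M.support)
    (hK : ∀ H ∈ ab M U, K ⊆ H) (hUK : U ⊂ K)
    (hU : U = ∅ ∨ U ∈ m.support) (hch : ∀ H ∈ M.support, H ⊆ U ∨ U ⊂ H) :
    pr Finset.card m K = U.card := by
  apply le_antisymm
  · apply Finset.sup_le
    intro G hG
    rw [Finset.mem_filter] at hG
    have h1 := ne_univ_of_ssubset hG.2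
    have h2 := hsub G hG.1 h1
    rcases hch G h2 with h3 | h3
    · exact Finset.card_le_card h3
    · exact absurd (hK G (mem_ab.2 ⟨h2, h3, h1⟩)) hG.2.2
  · rcases hU with rfl | hU
    · simp
    · exact Finset.le_sup (f := Finset.card) (Finset.mem_filter.2 ⟨hU, hUK⟩)

theorem exists_least {M : Ex n} (hch : IsChain (· ⊆ ·) (M.support : Set (Finset (Fin n))))
    {U : Finset (Fin n)} (hne : (ab M U).Nonempty) : ∃ K ∈ ab M U, ∀ H ∈ ab M U, K ⊆ H := by
  obtain ⟨K, hK, hmin⟩ := Finset.exists_min_image (ab M U) Finset.card hne
  refine ⟨K, hK, fun H hH => ?_⟩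
  rcases eq_or_ne K H with h | h
  · exact h.subset
  rcases hch (Finset.mem_coe.2 (mem_ab.1 hK).1) (Finset.mem_coe.2 (mem_ab.1 hH).1) h with h1 | h1
  · exact h1
  · exact (Finset.eq_of_subset_of_card_le h1 (hmin H hH)).symm.subset

theorem lv_eq {m m' : Ex n} {t : ℕ} (h : ∀ F : Finset (Fin n), F.card = t → m F = m' F) :
    lv m t = lv m' t := by
  have key : ∀ m : Ex n, lv m t = ∑ F : Finset (Fin n) with F.card = t, m F := by
    intro m
    rw [lv, Finset.sum_filter, Finset.sum_filter]
    apply Finset.sum_subset (Finset.subset_univ _)
    intro F _ hF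
    rw [Finsupp.notMem_support_iff.1 hF, ite_self]
  rw [key, key]
  exact Finset.sum_congr rfl fun F hF => h F (Finset.mem_filter.1 hF).2

theorem lv_single {m : Ex n} {K : Finset (Fin n)}
    (h : ∀ F ∈ m.support, F.card = K.card → F = K) : lv m K.card = m K := by
  have key : lv m K.card = ∑ F : Finset (Fin n) with F.card = K.card, m F := by
    rw [lv, Finset.sum_filter, Finset.sum_filter]
    apply Finset.sum_subset (Finset.subset_univ _)
    intro F _ hF
    rw [Finsupp.notMem_support_iff.1 hF, ite_self]
  rw [key]
  apply Finset.sum_eq_single K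
  · intro F hF hne
    by_contra hcon
    exact hne (h F (Finsupp.mem_support_iff.2 hcon) (Finset.mem_filter.1 hF).2)
  · intro h2
    exact absurd (by rw [Finset.mem_filter]; exact ⟨Finset.mem_univ K, rfl⟩) h2

theorem step (m m' : Ex n) (hm : FY r m) (hm' : FY r m') (hdeg : m.degree = m'.degree)
    (hch : IsChain (· ⊆ ·) ((m + du m').support : Set (Finset (Fin n))))
    (hem : (∅ : Finset (Fin n)) ∉ (m + du m').support) :
    ∀ (N : ℕ) (U : Finset (Fin n)), n - U.card ≤ N → U ≠ Finset.univ →
      (U = ∅ ∨ U ∈ m.support ∧ U ∈ m'.support) → (∀ F : Finset (Fin n), F.card ≤ U.card → m F = m' F) →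
      D (m + du m') U 0 ≠ 0 →
      m = m' ∨ ∃ s, (∀ t < s, lv m t = lv m' t) ∧ lv m' s < lv m s := by
  intro N
  induction N with
  | zero =>
    intro U h1 h2
    exfalso
    apply h2
    rw [← Finset.card_eq_iff_eq_univ, Fintype.card_fin]
    have := Finset.card_le_univ U
    rw [Fintype.card_fin] at this
    omega
  | succ N ih =>
    intro U hN hUu hU hag hD
    have hcm : ∀ H ∈ (m + du m').support, H ⊆ U ∨ U ⊂ H := by
      intro H hH
      rcases hU with rfl | hU
      · right
        refine Finset.empty_ssubset.2 (Finset.nonempty_iff_ne_empty.2 ?_)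
        rintro rfl
        exact hem hH
      · rcases eq_or_ne H U with h | h
        · exact Or.inl h.subset
        rcases hch hH (Finset.mem_coe.2 ((mem_M hm' hUu).2 (Or.inl hU.1))) h with h1 | h1
        · exact Or.inl h1
        · exact Or.inr (Finset.ssubset_iff_subset_ne.2 ⟨h1, h.symm⟩)
    by_cases hne : (ab (m + du m') U).Nonempty
    · obtain ⟨K, hK, hl⟩ := exists_least hch hne
      obtain ⟨hK1, hUK, hKu⟩ := mem_ab.1 hK
      have hcard := Finset.card_lt_card hUK
      rw [D_least hK hl] at hD
      have hD2 := right_ne_zero_of_mul hD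
      have hD3 := right_ne_zero_of_mul (right_ne_zero_of_mul (left_ne_zero_of_mul hD))
      have hb : 0 ≤ (0 : ℤ) + (m + du m') K - (K.card - U.card) := by
        by_contra hcon
        apply hD3
        rw [ch, if_neg hcon]
      have hMK : (m + du m') K = m K + du m' K := rfl
      have hp : ∀ H ∈ m.support, H ≠ Finset.univ → H ∈ (m + du m').support :=
        fun H hH h => (mem_M hm' h).2 (Or.inl hH)
      have hp' : ∀ H ∈ m'.support, H ≠ Finset.univ → H ∈ (m + du m').support :=
        fun H hH h => (mem_M hm' h).2 (Or.inr hH)
      have hpr := pr_card hp hl hUK (hU.imp_right And.left) hcm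
      have hpr' := pr_card hp' hl hUK (hU.imp_right And.right) hcm
      have hrK := rk_le (r := r) K
      have hk : K ∈ m.support → m K + U.card < K.card := by
        intro h
        have h1 := hm.2 K h
        rw [pr_eq hm.1, hpr] at h1
        omega
      have hk' : K ∈ m'.support → du m' K + U.card + m' K = K.card := by
        intro h
        have h1 := (du_pos hm' h hKu).2
        rw [hpr'] at h1
        exact h1
      by_cases h1 : K ∈ m'.support
      · have h1' := hk' h1
        have h1'' := Nat.pos_of_ne_zero (Finsupp.mem_support_iff.1 h1)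
        by_cases h2 : K ∈ m.support
        · have hag2 : ∀ F : Finset (Fin n), F.card ≤ K.card → F ≠ K → m F = m' F := by
            intro F hF hFK
            by_cases hs : F ∈ m.support ∨ F ∈ m'.support
            · have hFu : F ≠ Finset.univ := by
                rintro rfl
                apply hKu
                rw [← Finset.card_eq_iff_eq_univ]
                exact le_antisymm (Finset.card_le_univ K) hF
              have hFM := (mem_M (m := m) hm' hFu).2 hs
              rcases hcm F hFM with h3 | h3
              · exact hag F (Finset.card_le_card h3)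
              · have h4 := hl F (mem_ab.2 ⟨hFM, h3, hFu⟩)
                exact absurd (Finset.eq_of_subset_of_card_le h4 hF).symm hFK
            · rw [not_or] at hs
              rw [Finsupp.notMem_support_iff.1 hs.1, Finsupp.notMem_support_iff.1 hs.2]
          rcases lt_trichotomy (m K) (m' K) with h3 | h3 | h3
          · omega
          · have h4 : (0 : ℤ) + (m + du m') K - (K.card - U.card) = 0 := by omega
            rw [h4] at hD2
            refine ih K (by omega) hKu (Or.inr ⟨h2, h1⟩) ?_ hD2
            intro F hF
            rcases eq_or_ne F K with rfl | h5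
            · exact h3
            · exact hag2 F hF h5
          · right
            refine ⟨K.card, fun t ht => lv_eq fun F hF => hag2 F (by omega) ?_, ?_⟩
            · rintro rfl
              omega
            · rw [lv_single, lv_single]
              · exact h3
              · intro F hF hFK
                by_contra hcon
                have := hag2 F hFK.le hcon
                have hFu : F ≠ Finset.univ := by
                  rintro rfl
                  apply hKu
                  rw [← Finset.card_eq_iff_eq_univ, ← hFK, Finset.card_univ]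
                rcases hch (hp F hF hFu) hK1 hcon with h6 | h6
                · exact hcon (Finset.eq_of_subset_of_card_le h6 hFK.ge)
                · exact hcon (Finset.eq_of_subset_of_card_le h6 hFK.le).symm
              · intro F hF hFK
                by_contra hcon
                have hFu : F ≠ Finset.univ := by
                  rintro rfl
                  apply hKu
                  rw [← Finset.card_eq_iff_eq_univ, ← hFK, Finset.card_univ]
                rcases hch (hp' F hF hFu) hK1 hcon with h6 | h6
                · exact hcon (Finset.eq_of_subset_of_card_le h6 hFK.ge)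
                · exact hcon (Finset.eq_of_subset_of_card_le h6 hFK.le).symm
        · have h3 : m K = 0 := Finsupp.notMem_support_iff.1 h2
          omega
      · exfalso
        have h3 : du m' K = 0 := by rw [du_apply, if_neg hKu, if_neg h1]
        have h4 : m K ≠ 0 := by
          intro h5
          apply Finsupp.mem_support_iff.1 hK1
          rw [hMK, h5, h3, add_zero]
        have h6 := hk (Finsupp.mem_support_iff.2 h4)
        omega
    · left
      rw [Finset.not_nonempty_iff_eq_empty] at hne
      have hoff : ∀ F : Finset (Fin n), F ≠ Finset.univ → m F = m' F := by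
        intro F hFu
        by_cases hs : F ∈ m.support ∨ F ∈ m'.support
        · have hFM := (mem_M (m := m) hm' hFu).2 hs
          rcases hcm F hFM with h3 | h3
          · exact hag F (Finset.card_le_card h3)
          · have h4 := mem_ab.2 ⟨hFM, h3, hFu⟩
            rw [hne] at h4
            exact absurd h4 (Finset.notMem_empty _)
        · rw [not_or] at hs
          rw [Finsupp.notMem_support_iff.1 hs.1, Finsupp.notMem_support_iff.1 hs.2]
      have hu : m Finset.univ = m' Finset.univ := by
        have key : ∀ m : Ex n, m.degree = ∑ F : Finset (Fin n), m F := fun m =>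
          Finsupp.degree_eq_sum m
        rw [key, key, ← Finset.add_sum_erase _ _ (Finset.mem_univ (Finset.univ : Finset (Fin n))),
          ← Finset.add_sum_erase _ (fun F => m' F) (Finset.mem_univ (Finset.univ : Finset (Fin n))),
          Finset.sum_congr rfl fun F hF => hoff F (Finset.ne_of_mem_erase hF)] at hdeg
        exact Nat.add_right_cancel hdeg
      ext F
      rcases eq_or_ne F Finset.univ with rfl | h
      · exact hu
      · exact hoff F h

theorem p_tri : P_TRI := by
  intro n r m m' hr hrn hm hm' hdeg hD
  rw [Df] at hD
  split_ifs at hD with h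
  · have hn : (∅ : Finset (Fin n)) ≠ Finset.univ := by
      intro h2
      have h3 := congrArg Finset.card h2
      rw [Finset.card_empty, Finset.card_univ, Fintype.card_fin] at h3
      omega
    refine step m m' hm hm' hdeg h.2 h.1 n ∅ (Nat.sub_le _ _) hn (Or.inl rfl) ?_ hD
    intro F hF
    have hF0 : F = ∅ := Finset.card_eq_zero.1 (Nat.le_zero.1 hF)
    subst hF0
    have h1 : (∅ : Finset (Fin n)) ∉ m.support := fun h3 =>
      Finset.not_nonempty_empty (hm.1.1 _ h3).1
    have h2 : (∅ : Finset (Fin n)) ∉ m'.support := fun h3 =>
      Finset.not_nonempty_empty (hm'.1.1 _ h3).1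
    rw [Finsupp.notMem_support_iff.1 h1, Finsupp.notMem_support_iff.1 h2]
  · exact absurd rfl hD

end Pool.Agent.W2helper20.UC
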